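import Mathlib

/-!
# Real quadratic units and the Lucas sequences of the second kind
-/

set_option autoImplicit false

namespace Pool.Agent.Helper10K1.LF

/-- the Lucas sequence of the second kind: `V 0 = 2`, `V 1 = t`, `V (n + 2) = t V (n + 1) - s V n` -/
def lucV (t s : ℤ) : ℕ → ℤ
  | 0 => 2
  | 1 => t
  | (n + 2) => t * lucV t s (n + 1) - s * lucV t s n

/-- `w > 1` and `w'` are the roots of `X ^ 2 - t X + s`, `s = ± 1`, and irrational -/
structure Quad (w w' : ℝ) (t s : ℤ) : Prop where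
  hs : s = 1 ∨ s = -1
  sum : w + w' = t
  prod : w * w' = s
  gold : w + 1 ≤ w ^ 2
  one : 1 < w
  irr : ∀ m n : ℤ, (m : ℝ) + n * w = 0 → n = 0

namespace Quad

variable {w w' : ℝ} {t s : ℤ}

lemma ss (Q : Quad w w' t s) : (s : ℝ) * s = 1 := by
  rcases Q.hs with h | h <;> rw [h] <;> norm_num

lemma sq (Q : Quad w w' t s) : w ^ 2 = t * w - s := by
  have h1 := Q.sum
  have h2 := Q.prod
  linear_combination w * h1 - h2

lemma sq' (Q : Quad w w' t s) : w' ^ 2 = t * w' - s := by
  have h1 := Q.sum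
  have h2 := Q.prod
  linear_combination w' * h1 - h2

lemma pos (Q : Quad w w' t s) : 0 < w := by linarith [Q.one]

lemma low (Q : Quad w w' t s) : (1.618 : ℝ) ≤ w := by
  have h1 := Q.gold
  have h2 := Q.one
  nlinarith

lemma vw (Q : Quad w w' t s) : w' ^ 2 * w ^ 2 = 1 := by
  have h2 := Q.prod
  have h3 := Q.ss
  calc w' ^ 2 * w ^ 2 = (w * w') * (w * w') := by ring
    _ = 1 := by rw [h2, h3]

lemma vpos (Q : Quad w w' t s) : 0 < w' ^ 2 := by
  have h := Q.vw
  have h1 : 0 < w ^ 2 := by have := Q.pos; positivity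
  by_contra hcon
  push Not at hcon
  nlinarith

lemma vlt (Q : Quad w w' t s) : w' ^ 2 ≤ 0.382 := by
  have h := Q.vw
  have h1 := Q.gold
  have h2 := Q.low
  have h3 := Q.vpos
  have h4 : (2.618 : ℝ) ≤ w ^ 2 := by linarith
  nlinarith

/-- the quotient of the conjugates -/
lemma rho (Q : Quad w w' t s) : w * ((s : ℝ) * w' ^ 2) = w' := by
  have h2 := Q.prod
  have h3 := Q.ss
  calc w * ((s : ℝ) * w' ^ 2) = s * (w * w') * w' := by ring
    _ = (s * s) * w' := by rw [h2]
    _ = w' := by rw [h3, one_mul]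

lemma abs_rho (Q : Quad w w' t s) : |(s : ℝ) * w' ^ 2| = w' ^ 2 := by
  have h3 := Q.vpos
  rcases Q.hs with h | h
  · rw [h]; simp
  · rw [h]; simp

lemma abs_w' (Q : Quad w w' t s) : |w'| < 1 := by
  have h := Q.vlt
  rw [abs_lt]
  constructor <;> nlinarith

lemma trace_pow (Q : Quad w w' t s) (a : ℕ) :
    w ^ a + w' ^ a = w ^ a * (1 + ((s : ℝ) * w' ^ 2) ^ a) := by
  have h : w ^ a * ((s : ℝ) * w' ^ 2) ^ a = w' ^ a := by
    rw [← mul_pow, Q.rho]
  rw [mul_add, mul_one, h]

lemma lucV_eq (Q : Quad w w' t s) (n : ℕ) : ((lucV t s n : ℤ) : ℝ) = w ^ n + w' ^ n := by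
  induction n using Nat.twoStepInduction with
  | zero => simp [lucV]; norm_num
  | one => simp [lucV, Q.sum]
  | more n ih1 ih2 =>
    simp only [lucV]
    push_cast
    rw [ih1, ih2]
    have h1 := Q.sq
    have h2 := Q.sq'
    have e1 : w ^ (n + 2) = w ^ n * w ^ 2 := by ring
    have e2 : w' ^ (n + 2) = w' ^ n * w' ^ 2 := by ring
    rw [e1, e2, h1, h2]
    ring

end Quad

/-- conjugate pairs of elements of `ℤ[w]` -/
def CP (w w' α α' : ℝ) : Prop := ∃ m n : ℤ, α = m + n * w ∧ α' = m + n * w'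

namespace CP

variable {w w' α α' β β' : ℝ} {t s : ℤ}

lemma int (k : ℤ) : CP w w' k k := ⟨k, 0, by simp, by simp⟩

lemma nat (k : ℕ) : CP w w' k k := by simpa using int (w := w) (w' := w') (k : ℤ)

lemma self : CP w w' w w' := ⟨0, 1, by simp, by simp⟩

lemma add (h : CP w w' α α') (h' : CP w w' β β') : CP w w' (α + β) (α' + β') := by
  obtain ⟨m, n, h1, h2⟩ := h
  obtain ⟨m', n', h3, h4⟩ := h'
  exact ⟨m + m', n + n', by rw [h1, h3]; push_cast; ring, by rw [h2, h4]; push_cast; ring⟩

lemma sub (h : CP w w' α α') (h' : CP w w' β β') : CP w w' (α - β) (α' - β') := by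
  obtain ⟨m, n, h1, h2⟩ := h
  obtain ⟨m', n', h3, h4⟩ := h'
  exact ⟨m - m', n - n', by rw [h1, h3]; push_cast; ring, by rw [h2, h4]; push_cast; ring⟩

lemma mul (Q : Quad w w' t s) (h : CP w w' α α') (h' : CP w w' β β') :
    CP w w' (α * β) (α' * β') := by
  obtain ⟨m, n, h1, h2⟩ := h
  obtain ⟨m', n', h3, h4⟩ := h'
  refine ⟨m * m' - n * n' * s, m * n' + n * m' + n * n' * t, ?_, ?_⟩
  · rw [h1, h3]
    push_cast
    have := Q.sq
    linear_combination (n : ℝ) * n' * this
  · rw [h2, h4]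
    push_cast
    have := Q.sq'
    linear_combination (n : ℝ) * n' * this

lemma pow (Q : Quad w w' t s) (h : CP w w' α α') (k : ℕ) : CP w w' (α ^ k) (α' ^ k) := by
  induction k with
  | zero => simpa using int (w := w) (w' := w') 1
  | succ k ih => rw [pow_succ, pow_succ]; exact mul Q ih h

lemma conj_self (Q : Quad w w' t s) : CP w w' w' w :=
  ⟨t, -1, by push_cast; linarith [Q.sum], by push_cast; linarith [Q.sum]⟩

/-- the conjugate of a nonzero element is nonzero, and the norm is at least one -/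
lemma norm (Q : Quad w w' t s) (h : CP w w' α α') (h1 : |α| * |α'| < 1) : α = 0 ∧ α' = 0 := by
  obtain ⟨m, n, rfl, rfl⟩ := h
  have e : ((m : ℝ) + n * w) * (m + n * w') = ((m ^ 2 + m * n * t + n ^ 2 * s : ℤ) : ℝ) := by
    push_cast
    linear_combination (m : ℝ) * n * Q.sum + (n : ℝ) ^ 2 * Q.prod
  have h2 : |(((m ^ 2 + m * n * t + n ^ 2 * s : ℤ) : ℤ) : ℝ)| < 1 := by
    rw [← e, abs_mul]; exact h1
  have h3 : (m ^ 2 + m * n * t + n ^ 2 * s : ℤ) = 0 := by
    have : |(m ^ 2 + m * n * t + n ^ 2 * s : ℤ)| < 1 := by exact_mod_cast h2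
    exact Int.abs_lt_one_iff.1 this
  rw [h3] at e
  have e' : ((m : ℝ) + n * w) * (m + n * w') = 0 := by rw [e]; simp
  rcases mul_eq_zero.1 e' with h4 | h4
  · have hn := Q.irr m n h4
    subst hn
    simp at h4
    subst h4
    simp
  · have h5 : ((m + n * t : ℤ) : ℝ) + ((-n : ℤ) : ℝ) * w = 0 := by
      push_cast
      have := Q.sum
      linear_combination h4 - (n : ℝ) * this
    have hn := Q.irr _ _ h5
    have hn' : n = 0 := by omega
    subst hn'
    simp at h4
    subst h4
    simp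

end CP

/-- every Lucas sequence with `s = ± 1`, `t > 0` and positive discriminant comes from a quadratic unit -/
lemma exists_quad {t s : ℤ} (hs : s = 1 ∨ s = -1) (ht : 0 < t) (hD : 0 < t ^ 2 - 4 * s) :
    ∃ w w' : ℝ, Quad w w' t s := by
  have hD' : (0 : ℝ) < (t : ℝ) ^ 2 - 4 * s := by exact_mod_cast hD
  set d := Real.sqrt ((t : ℝ) ^ 2 - 4 * s) with hd
  have hdd : d * d = (t : ℝ) ^ 2 - 4 * s := Real.mul_self_sqrt hD'.le
  have hd0 : 0 < d := Real.sqrt_pos.2 hD'
  have ht' : (1 : ℝ) ≤ t := by exact_mod_cast ht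
  have hone : 1 < (t + d) / 2 := by
    rcases hs with h | h
    · have h3 : 3 ≤ t := by
        subst h
        by_contra hcon
        push Not at hcon
        have : t = 1 ∨ t = 2 := by omega
        rcases this with h | h <;> subst h <;> omega
      have : (3 : ℝ) ≤ t := by exact_mod_cast h3
      linarith
    · have h5 : (t : ℝ) ^ 2 - 4 * s ≥ 5 := by
        rw [h]; push_cast; nlinarith
      have : (1 : ℝ) < d := by nlinarith
      linarith
  have hprod : ((t + d) / 2) * ((t - d) / 2) = s := by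
    linear_combination -(1 / 4) * hdd
  have hsum : ((t : ℝ) + d) / 2 + (t - d) / 2 = t := by ring
  have hsq : ((t + d) / 2) ^ 2 = t * ((t + d) / 2) - s := by
    linear_combination ((t + d) / 2) * hsum - hprod
  refine ⟨(t + d) / 2, (t - d) / 2, hs, hsum, hprod, ?_, hone, ?_⟩
  · rw [hsq]
    rcases hs with h | h
    · have h3 : 3 ≤ t := by
        subst h
        by_contra hcon
        push Not at hcon
        have : t = 1 ∨ t = 2 := by omega
        rcases this with h | h <;> subst h <;> omega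
      have h3' : (3 : ℝ) ≤ t := by exact_mod_cast h3
      rw [h]
      push_cast
      nlinarith
    · rw [h]
      push_cast
      nlinarith
  · intro m n hmn
    by_contra hn
    have e : (2 * m + n * t) ^ 2 = n ^ 2 * (t ^ 2 - 4 * s) := by
      have h1 : ((2 * m + n * t : ℤ) : ℝ) = - n * d := by
        push_cast
        linear_combination 2 * hmn
      have h2 : (((2 * m + n * t) ^ 2 : ℤ) : ℝ) = ((n ^ 2 * (t ^ 2 - 4 * s) : ℤ) : ℝ) := by
        push_cast at h1 ⊢
        rw [h1]
        linear_combination (n : ℝ) ^ 2 * hdd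
      exact_mod_cast h2
    have hdvd : n ∣ 2 * m + n * t := by
      have : n ^ 2 ∣ (2 * m + n * t) ^ 2 := ⟨_, e⟩
      exact (Int.pow_dvd_pow_iff two_ne_zero).1 this
    obtain ⟨j, hj⟩ := hdvd
    rw [hj] at e
    have e2 : j ^ 2 = t ^ 2 - 4 * s := by
      have : n ^ 2 * j ^ 2 = n ^ 2 * (t ^ 2 - 4 * s) := by rw [← e]; ring
      exact mul_left_cancel₀ (pow_ne_zero 2 hn) this
    have hj2 : |j| ^ 2 = t ^ 2 - 4 * s := by rw [sq_abs]; exact e2
    have hj0 : 0 ≤ |j| := abs_nonneg j
    generalize |j| = i at hj2 hj0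
    rcases hs with h | h
    · subst h
      have h3 : 3 ≤ t := by
        by_contra hcon
        push Not at hcon
        have : t = 1 ∨ t = 2 := by omega
        rcases this with h | h <;> subst h <;> omega
      have h1 : i < t := by nlinarith
      have h2 : t - 1 < i := by nlinarith
      omega
    · subst h
      have h1 : t < i := by nlinarith
      have h2 : i < t + 2 := by nlinarith
      have h3 : i = t + 1 := by omega
      subst h3
      have : 2 * t = 3 := by nlinarith
      omega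

end Pool.Agent.Helper10K1.LF
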