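import Mathlib
import Pool.Agent.Helper10K1.LF.Quad

/-!
# Two powers of traces with the same main term
-/

set_option autoImplicit false

namespace Pool.Agent.Helper10K1.LF

lemma binom {n : ℕ} {e : ℝ} (h : n * |e| ≤ 1 / 2) : |(1 + e) ^ n - 1 - n * e| ≤ (n * |e|) ^ 2 := by
  rcases Nat.eq_zero_or_pos n with h0 | h0
  · subst h0
    simp
  have hn : (1 : ℝ) ≤ n := by exact_mod_cast h0
  have hu1 : |e| ≤ 1 / 2 := by
    have : |e| ≤ n * |e| := le_mul_of_one_le_left (abs_nonneg _) hn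
    linarith
  have hu2 := abs_le.1 hu1
  have h1 : (1 + e) ^ n ≤ Real.exp (n * e) := by
    rw [mul_comm, Real.exp_mul]
    rw [Real.rpow_natCast]
    apply pow_le_pow_left₀ (by linarith)
    have := Real.add_one_le_exp e
    linarith
  have h2 := Real.abs_exp_sub_one_sub_id_le (x := n * e) (by
    rw [abs_mul, Nat.abs_cast]; linarith)
  have h4 := (abs_le.1 h2).2
  have h5 : (n * e) ^ 2 = (n * |e|) ^ 2 := by
    rw [mul_pow, mul_pow, sq_abs]
  have h6 : 1 + n * e ≤ (1 + e) ^ n := one_add_mul_le_pow (by linarith) n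
  rw [h5] at h4
  rw [abs_le]
  constructor
  · have : 0 ≤ (n * |e|) ^ 2 := by positivity
    linarith
  · linarith

set_option maxHeartbeats 2000000

variable {w w' : ℝ} {t s : ℤ}

/-- sizes: `v ^ g ≤ 1 / S ^ 2` -/
lemma vpow_le (Q : Quad w w' t s) {g : ℕ} {S : ℝ} (hS0 : 0 < S) (hS : S ≤ w ^ g) :
    (w' ^ 2) ^ g ≤ 1 / S ^ 2 := by
  rw [le_div_iff₀ (by positivity)]
  have h1 : (w' ^ 2) ^ g * (w ^ g) ^ 2 = 1 := by
    calc (w' ^ 2) ^ g * (w ^ g) ^ 2 = (w' ^ 2 * w ^ 2) ^ g := by rw [mul_pow]; ring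
      _ = 1 := by rw [Q.vw, one_pow]
  have h2 : S ^ 2 ≤ (w ^ g) ^ 2 := pow_le_pow_left₀ hS0.le hS 2
  have h3 : 0 ≤ (w' ^ 2) ^ g := by have := Q.vpos; positivity
  calc (w' ^ 2) ^ g * S ^ 2 ≤ (w' ^ 2) ^ g * (w ^ g) ^ 2 := mul_le_mul_of_nonneg_left h2 h3
    _ = 1 := h1

/-- the equation between the second order terms has no solution -/
lemma no_lambda (Q : Quad w w' t s) {g d P R k : ℕ} {L S lam : ℝ} (hd : 1 ≤ d) (hg : 1 ≤ g)
    (hgP : g * P = (g + d) * R) (hR2 : 2 ≤ R) (hP3 : 3 ≤ P) (hk : 1 ≤ k)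
    (hPL : (P : ℝ) ≤ L) (hRL : (R : ℝ) ≤ L) (hL3 : 3 ≤ L) (hS : 14 * L ^ 3 ≤ S)
    (hlam : lam = P - R * ((s : ℝ) * w' ^ 2) ^ d - w ^ k) (hb : |lam| ≤ 8 * L ^ 2 / S ^ 2) : False := by
  have hL0 : 0 < L := by linarith
  have hS0 : 0 < S := lt_of_lt_of_le (by positivity) hS
  have hvpos := Q.vpos
  have hS2 : 196 * L ^ 6 ≤ S ^ 2 := by
    calc 196 * L ^ 6 = (14 * L ^ 3) ^ 2 := by ring
      _ ≤ S ^ 2 := pow_le_pow_left₀ (by positivity) hS 2
  have hkw : |w' ^ k| < 1 := by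
    rw [abs_pow]
    exact pow_lt_one₀ (abs_nonneg _) Q.abs_w' (by omega)
  have hkw' := abs_lt.1 hkw
  have hP3' : (3 : ℝ) ≤ P := by exact_mod_cast hP3
  have hR2' : (2 : ℝ) ≤ R := by exact_mod_cast hR2
  set W : ℝ := (w ^ 2) ^ d with hW
  have hW1 : 1 + 1.618 * d ≤ W := by
    have h1 : (2.618 : ℝ) ≤ w ^ 2 := by linarith [Q.gold, Q.low]
    have h2 : 1 + (d : ℝ) * (w ^ 2 - 1) ≤ (1 + (w ^ 2 - 1)) ^ d :=
      one_add_mul_le_pow (by linarith) d
    have h3 : (1 + (w ^ 2 - 1)) ^ d = W := by rw [hW]; ring_nf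
    rw [h3] at h2
    have h4 : (0 : ℝ) ≤ d := Nat.cast_nonneg d
    nlinarith
  have hd' : (1 : ℝ) ≤ d := by exact_mod_cast hd
  have hWpos : 0 < W := by linarith
  have hWv : (w' ^ 2) ^ d * W = 1 := by rw [hW, ← mul_pow, Q.vw, one_pow]
  -- sign of `s ^ d`
  have hsd : ((s : ℝ) ^ d = 1) ∨ ((s : ℝ) ^ d = -1) := by
    rcases Q.hs with h | h
    · left; rw [h]; simp
    · rw [h]
      rcases Nat.even_or_odd d with h1 | h1
      · left; push_cast; exact h1.neg_one_pow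
      · right; push_cast; exact h1.neg_one_pow
  have hcp : CP w w' ((s : ℝ) * w' ^ 2) ((s : ℝ) * w ^ 2) :=
    CP.mul Q (CP.int s) (CP.pow Q (CP.conj_self Q) 2)
  rcases le_or_gt W (8 * L ^ 2) with hc | hc
  · -- the norm argument
    have h1 : CP w w' lam (P - R * ((s : ℝ) * w ^ 2) ^ d - w' ^ k) := by
      rw [hlam]
      exact CP.sub (CP.sub (CP.nat P) (CP.mul Q (CP.nat R) (CP.pow Q hcp d)))
        (CP.pow Q CP.self k)
    have h2 : |(P : ℝ) - R * ((s : ℝ) * w ^ 2) ^ d - w' ^ k| ≤ 9 * L ^ 3 := by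
      have e1 : (R : ℝ) * ((s : ℝ) * w ^ 2) ^ d = (s : ℝ) ^ d * (R * W) := by rw [mul_pow]; ring
      rw [e1]
      have h3 : R * W ≤ L * (8 * L ^ 2) := mul_le_mul hRL hc hWpos.le hL0.le
      have h3' : R * W ≤ 8 * L ^ 3 := by
        calc R * W ≤ L * (8 * L ^ 2) := h3
          _ = 8 * L ^ 3 := by ring
      have h4 : L + 1 ≤ L ^ 3 := by
        have h6 : (9 : ℝ) ≤ L ^ 2 := by nlinarith
        have h7 : L ^ 3 = L * L ^ 2 := by ring
        rw [h7]
        nlinarith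
      have h5 : 0 ≤ R * W := by positivity
      have k1 := hkw'.1
      have k2 := hkw'.2
      rw [abs_le]
      rcases hsd with h | h
      · rw [h]
        constructor <;> linarith
      · rw [h]
        constructor <;> linarith
    have h3 : |lam| * |(P : ℝ) - R * ((s : ℝ) * w ^ 2) ^ d - w' ^ k| < 1 := by
      calc |lam| * |(P : ℝ) - R * ((s : ℝ) * w ^ 2) ^ d - w' ^ k|
          ≤ (8 * L ^ 2 / S ^ 2) * (9 * L ^ 3) := by gcongr
        _ = 72 * L ^ 5 / S ^ 2 := by ring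
        _ < 1 := by
          rw [div_lt_one (by positivity)]
          have h5 : L ^ 5 ≤ L ^ 6 := pow_le_pow_right₀ (by linarith) (by norm_num)
          have h6 : 0 < L ^ 6 := by positivity
          linarith
    obtain ⟨-, h5⟩ := CP.norm Q h1 h3
    have e1 : (R : ℝ) * ((s : ℝ) * w ^ 2) ^ d = (s : ℝ) ^ d * (R * W) := by rw [mul_pow]; ring
    rw [e1] at h5
    have k1 := hkw'.1
    have k2 := hkw'.2
    rcases hsd with h | h
    · rw [h] at h5
      -- `R W < P + 1`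
      have h6 : R * W < P + 1 := by linarith
      have h7 : P ≤ R * (1 + d) := by
        have h8 : g * P ≤ g * (R * (1 + d)) := by
          rw [hgP]
          have h9 : d * R ≤ g * (d * R) := Nat.le_mul_of_pos_left _ (by omega)
          calc (g + d) * R = g * R + d * R := by ring
            _ ≤ g * R + g * (d * R) := by omega
            _ = g * (R * (1 + d)) := by ring
        exact Nat.le_of_mul_le_mul_left h8 (by omega)
      have h7' : (P : ℝ) ≤ R * (1 + d) := by exact_mod_cast h7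
      have h8 : (R : ℝ) * W < R * (1.5 + d) := by
        have e8 : (R : ℝ) * (1.5 + d) = R * (1 + d) + R * 0.5 := by ring
        rw [e8]
        linarith
      have h9 : W < 1.5 + d := lt_of_mul_lt_mul_left h8 (by linarith)
      linarith
    · rw [h] at h5
      have : 0 < R * W := by positivity
      linarith
  · -- `W` is large
    have h1 : CP w w' ((P : ℝ) - w ^ k) ((P : ℝ) - w' ^ k) :=
      CP.sub (CP.nat P) (CP.pow Q CP.self k)
    have h2 : |(P : ℝ) - w ^ k| ≤ 8 * L ^ 2 / S ^ 2 + 1 / (8 * L) := by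
      have e1 : (P : ℝ) - w ^ k = lam + R * ((s : ℝ) * w' ^ 2) ^ d := by rw [hlam]; ring
      rw [e1]
      refine (abs_add_le _ _).trans (add_le_add hb ?_)
      rw [abs_mul, abs_pow, Q.abs_rho, Nat.abs_cast]
      have h3 : (w' ^ 2) ^ d ≤ 1 / (8 * L ^ 2) := by
        rw [le_div_iff₀ (by positivity), ← hWv]
        have : 0 < (w' ^ 2) ^ d := by positivity
        exact mul_le_mul_of_nonneg_left hc.le this.le
      calc (R : ℝ) * (w' ^ 2) ^ d ≤ L * (1 / (8 * L ^ 2)) :=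
            mul_le_mul hRL h3 (by positivity) hL0.le
        _ = 1 / (8 * L) := by field_simp
    have k1 := hkw'.1
    have k2 := hkw'.2
    have h3 : |(P : ℝ) - w' ^ k| ≤ 2 * L := by
      rw [abs_le]
      constructor <;> linarith
    have h4 : |(P : ℝ) - w ^ k| * |(P : ℝ) - w' ^ k| < 1 := by
      calc |(P : ℝ) - w ^ k| * |(P : ℝ) - w' ^ k|
          ≤ (8 * L ^ 2 / S ^ 2 + 1 / (8 * L)) * (2 * L) := by gcongr
        _ = 16 * L ^ 3 / S ^ 2 + 1 / 4 := by field_simp; ring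
        _ < 1 := by
          have h5 : 16 * L ^ 3 / S ^ 2 ≤ 1 / 2 := by
            rw [div_le_iff₀ (by positivity)]
            have h6 : L ^ 3 ≤ L ^ 6 := pow_le_pow_right₀ (by linarith) (by norm_num)
            have h7 : 0 < L ^ 6 := by positivity
            linarith
          linarith
    obtain ⟨-, h5⟩ := CP.norm Q h1 h4
    linarith

/-- two powers of traces with the same main term: their difference is no power of a trace -/
lemma two_equal (Q : Quad w w' t s) {g h P R b q M : ℕ} {L S : ℝ} (hgh : g < h) (hg : 1 ≤ g)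
    (hP : g * P = M) (hR : h * R = M) (hR2 : 2 ≤ R) (hPL : (P : ℝ) ≤ L) (hRL : (R : ℝ) ≤ L)
    (hqL : (q : ℝ) ≤ L) (hS : 14 * L ^ 3 ≤ S) (hSg : S ≤ w ^ g) (hSb : S ≤ w ^ b)
    (heq : |(w ^ g + w' ^ g) ^ P - (w ^ h + w' ^ h) ^ R| = (w ^ b + w' ^ b) ^ q) : False := by
  obtain ⟨d, rfl⟩ : ∃ d, h = g + d := ⟨h - g, by omega⟩
  have hd : 1 ≤ d := by omega
  have hRP : R < P := by
    by_contra hcon
    push Not at hcon
    have h1 : g * P < (g + d) * R := by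
      calc g * P ≤ g * R := Nat.mul_le_mul_left g hcon
        _ < (g + d) * R := Nat.mul_lt_mul_of_pos_right (by omega) (by omega)
    omega
  have hP3 : 3 ≤ P := by omega
  have hP3' : (3 : ℝ) ≤ P := by exact_mod_cast hP3
  have hR2' : (2 : ℝ) ≤ R := by exact_mod_cast hR2
  have hRP' : (R : ℝ) + 1 ≤ P := by exact_mod_cast hRP
  have hL3 : 3 ≤ L := by linarith
  have hL0 : 0 < L := by linarith
  have hS0 : 0 < S := lt_of_lt_of_le (by positivity) hS
  have hS2 : 196 * L ^ 6 ≤ S ^ 2 := by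
    calc 196 * L ^ 6 = (14 * L ^ 3) ^ 2 := by ring
      _ ≤ S ^ 2 := pow_le_pow_left₀ (by positivity) hS 2
  have hwpos := Q.pos
  have hvpos := Q.vpos
  have hvlt := Q.vlt
  set v : ℝ := w' ^ 2 with hv
  set ρ : ℝ := (s : ℝ) * v with hρ
  have hρv : |ρ| = v := Q.abs_rho
  have hρ0 : ρ ≠ 0 := by
    intro h0
    rw [h0, abs_zero] at hρv
    linarith
  have hvg := vpow_le Q hS0 hSg
  have hvb := vpow_le Q hS0 hSb
  rw [← hv] at hvg hvb
  have hL2S : L ^ 2 / S ^ 2 ≤ 1 / 196 := by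
    rw [div_le_div_iff₀ (by positivity) (by norm_num)]
    have h6 : L ^ 2 ≤ L ^ 6 := pow_le_pow_right₀ (by linarith) (by norm_num)
    linarith
  have hLS : L / S ^ 2 ≤ 1 / 196 := by
    rw [div_le_div_iff₀ (by positivity) (by norm_num)]
    have h6 : L ^ 1 ≤ L ^ 6 := pow_le_pow_right₀ (by linarith) (by norm_num)
    rw [pow_one] at h6
    linarith
  have hvg0 : 0 < v ^ g := by positivity
  -- the expansions
  have hsm : ∀ {n e : ℕ}, (n : ℝ) ≤ L → v ^ e ≤ 1 / S ^ 2 → (n : ℝ) * |ρ ^ e| ≤ L / S ^ 2 := by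
    intro n e hn he
    rw [abs_pow, hρv]
    calc (n : ℝ) * v ^ e ≤ L * (1 / S ^ 2) := mul_le_mul hn he (by positivity) hL0.le
      _ = L / S ^ 2 := by ring
  have hvgd : v ^ (g + d) ≤ v ^ g := pow_le_pow_of_le_one hvpos.le (by linarith) (by omega)
  have hb1 := binom (n := P) (e := ρ ^ g) (by
    have := hsm hPL hvg
    linarith)
  have hb2 := binom (n := R) (e := ρ ^ (g + d)) (by
    have := hsm hRL (hvgd.trans hvg)
    linarith)
  have hb3 := binom (n := q) (e := ρ ^ b) (by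
    have := hsm hqL hvb
    linarith)
  set e₁ := (1 + ρ ^ g) ^ P - 1 - P * ρ ^ g with he₁
  set e₂ := (1 + ρ ^ (g + d)) ^ R - 1 - R * ρ ^ (g + d) with he₂
  set e₄ := (1 + ρ ^ b) ^ q - 1 with he₄
  have he₄b : |e₄| ≤ 2 * L / S ^ 2 := by
    have h1 : e₄ = ((1 + ρ ^ b) ^ q - 1 - q * ρ ^ b) + q * ρ ^ b := by rw [he₄]; ring
    rw [h1]
    refine (abs_add_le _ _).trans ?_
    have h2 : |(q : ℝ) * ρ ^ b| ≤ L / S ^ 2 := by
      rw [abs_mul, Nat.abs_cast]; exact hsm hqL hvb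
    have h3 : ((q : ℝ) * |ρ ^ b|) ^ 2 ≤ L / S ^ 2 := by
      have h4 := hsm hqL hvb
      have h5 : 0 ≤ (q : ℝ) * |ρ ^ b| := by positivity
      calc ((q : ℝ) * |ρ ^ b|) ^ 2 = ((q : ℝ) * |ρ ^ b|) * ((q : ℝ) * |ρ ^ b|) := by ring
        _ ≤ (L / S ^ 2) * 1 := mul_le_mul h4 (by linarith) h5 (by positivity)
        _ = L / S ^ 2 := by ring
    have h6 : 2 * L / S ^ 2 = L / S ^ 2 + L / S ^ 2 := by ring
    linarith
  -- the error `e₃`
  set e₃ : ℝ := (e₁ - e₂) / ρ ^ g with he₃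
  have he₃b : |e₃| ≤ 2 * L ^ 2 / S ^ 2 := by
    rw [he₃, abs_div, abs_pow, hρv, div_le_iff₀ hvg0]
    have h1 : |e₁| ≤ L ^ 2 / S ^ 2 * v ^ g := by
      refine hb1.trans ?_
      rw [abs_pow, hρv]
      calc ((P : ℝ) * v ^ g) ^ 2 = (P : ℝ) ^ 2 * v ^ g * v ^ g := by ring
        _ ≤ L ^ 2 * (1 / S ^ 2) * v ^ g := by gcongr
        _ = _ := by ring
    have h2 : |e₂| ≤ L ^ 2 / S ^ 2 * v ^ g := by
      refine hb2.trans ?_
      rw [abs_pow, hρv]
      calc ((R : ℝ) * v ^ (g + d)) ^ 2 = (R : ℝ) ^ 2 * v ^ (g + d) * v ^ (g + d) := by ring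
        _ ≤ L ^ 2 * (1 / S ^ 2) * v ^ g := by
          have := hvgd.trans hvg
          gcongr
        _ = _ := by ring
    calc |e₁ - e₂| ≤ |e₁| + |e₂| := abs_sub _ _
      _ ≤ L ^ 2 / S ^ 2 * v ^ g + L ^ 2 / S ^ 2 * v ^ g := add_le_add h1 h2
      _ = _ := by ring
  -- the difference
  have hD : (w ^ g + w' ^ g) ^ P - (w ^ (g + d) + w' ^ (g + d)) ^ R =
      w ^ M * ρ ^ g * (P - R * ρ ^ d + e₃) := by
    have t1 : (w ^ g + w' ^ g) ^ P = w ^ M * (1 + ρ ^ g) ^ P := by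
      rw [Q.trace_pow, mul_pow, ← pow_mul, hP]
    have t2 : (w ^ (g + d) + w' ^ (g + d)) ^ R = w ^ M * (1 + ρ ^ (g + d)) ^ R := by
      rw [Q.trace_pow, mul_pow, ← pow_mul, hR]
    rw [t1, t2]
    have h1 : (1 + ρ ^ g) ^ P = 1 + P * ρ ^ g + e₁ := by rw [he₁]; ring
    have h2 : (1 + ρ ^ (g + d)) ^ R = 1 + R * ρ ^ (g + d) + e₂ := by rw [he₂]; ring
    rw [h1, h2]
    have h3 : ρ ^ g * e₃ = e₁ - e₂ := by
      rw [he₃]
      field_simp
    have h4 : ρ ^ (g + d) = ρ ^ g * ρ ^ d := pow_add _ _ _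
    rw [h4]
    linear_combination (-(w ^ M)) * h3
  have hρd : |ρ ^ d| ≤ 0.382 := by
    rw [abs_pow, hρv]
    calc v ^ d ≤ v ^ 1 := pow_le_pow_of_le_one hvpos.le (by linarith) hd
      _ ≤ 0.382 := by rw [pow_one]; exact hvlt
  have hρd' := abs_le.1 hρd
  have he₃' := abs_le.1 he₃b
  have h2L : 2 * L ^ 2 / S ^ 2 ≤ 1 / 98 := by
    have : 2 * L ^ 2 / S ^ 2 = 2 * (L ^ 2 / S ^ 2) := by ring
    linarith
  have h2L' : 2 * L / S ^ 2 ≤ 1 / 98 := by
    have : 2 * L / S ^ 2 = 2 * (L / S ^ 2) := by ring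
    linarith
  have hRρ : |(R : ℝ) * ρ ^ d| ≤ 0.382 * R := by
    rw [abs_mul, Nat.abs_cast, mul_comm]
    exact mul_le_mul_of_nonneg_right hρd (by linarith)
  have hRρ' := abs_le.1 hRρ
  have k1 := hRρ'.1
  have k2 := hRρ'.2
  have k3 := he₃'.1
  have k4 := he₃'.2
  have hbr : (1.8 : ℝ) < P - R * ρ ^ d + e₃ := by linarith
  have hbr2 : (P : ℝ) - R * ρ ^ d + e₃ ≤ 2 * L := by linarith
  obtain ⟨K, hK⟩ : ∃ K, M = K + 2 * g := ⟨M - 2 * g, by
    have : 2 * g ≤ M := by rw [← hP]; nlinarith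
    omega⟩
  have hvw : w ^ M * v ^ g = w ^ K := by
    rw [hK, pow_add, pow_mul]
    have : (w ^ 2) ^ g * v ^ g = 1 := by
      rw [← mul_pow, mul_comm (w ^ 2) v, hv, Q.vw, one_pow]
    calc w ^ K * (w ^ 2) ^ g * v ^ g = w ^ K * ((w ^ 2) ^ g * v ^ g) := by ring
      _ = w ^ K := by rw [this, mul_one]
  have hmain : w ^ K * (P - R * ρ ^ d + e₃) = w ^ (b * q) * (1 + e₄) := by
    have h1 : |w ^ M * ρ ^ g * (P - R * ρ ^ d + e₃)| = w ^ K * (P - R * ρ ^ d + e₃) := by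
      rw [abs_mul, abs_mul, abs_pow ρ, hρv, abs_of_pos (by linarith : (0 : ℝ) < P - R * ρ ^ d + e₃),
        abs_of_pos (by positivity : 0 < w ^ M), hvw]
    have t3 : (w ^ b + w' ^ b) ^ q = w ^ (b * q) * (1 + ρ ^ b) ^ q := by
      rw [Q.trace_pow, mul_pow, ← pow_mul]
    rw [← h1, ← hD, heq, t3, he₄]
    ring
  have he₄' := abs_le.1 he₄b
  have hKb : K < b * q := by
    by_contra hcon
    push Not at hcon
    have h1 : w ^ (b * q) ≤ w ^ K := pow_le_pow_right₀ Q.one.le hcon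
    have h2 : 0 < w ^ K := by positivity
    have j1 := he₄'.1
    have j2 := he₄'.2
    have h3 : w ^ (b * q) * (1 + e₄) ≤ w ^ K * 1.1 := by
      apply mul_le_mul h1 (by linarith) (by linarith) h2.le
    have h4 : w ^ K * 1.8 < w ^ K * (P - R * ρ ^ d + e₃) := mul_lt_mul_of_pos_left hbr h2
    linarith
  obtain ⟨k, hk⟩ : ∃ k, b * q = K + k := ⟨b * q - K, by omega⟩
  have hk1 : 1 ≤ k := by omega
  have hmain2 : (P : ℝ) - R * ρ ^ d + e₃ = w ^ k * (1 + e₄) := by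
    rw [hk, pow_add, mul_assoc] at hmain
    exact mul_left_cancel₀ (by positivity) hmain
  have hwk : w ^ k ≤ 3 * L := by
    have h1 : 0 < w ^ k := by positivity
    have j1 := he₄'.1
    have h2 : w ^ k * 0.9 ≤ w ^ k * (1 + e₄) := mul_le_mul_of_nonneg_left (by linarith) h1.le
    linarith
  have hwk0 : 0 < w ^ k := by positivity
  refine no_lambda Q (g := g) (d := d) (P := P) (R := R) (k := k) (L := L) (S := S)
    (lam := P - R * ρ ^ d - w ^ k) hd hg (by rw [hP, hR]) hR2 hP3 hk1 hPL hRL hL3 hS rfl ?_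
  have h1 : (P : ℝ) - R * ρ ^ d - w ^ k = w ^ k * e₄ - e₃ := by linarith
  rw [h1]
  calc |w ^ k * e₄ - e₃| ≤ |w ^ k * e₄| + |e₃| := abs_sub _ _
    _ = w ^ k * |e₄| + |e₃| := by rw [abs_mul, abs_of_pos hwk0]
    _ ≤ (3 * L) * (2 * L / S ^ 2) + 2 * L ^ 2 / S ^ 2 := by gcongr
    _ = 8 * L ^ 2 / S ^ 2 := by ring

end Pool.Agent.Helper10K1.LF
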