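import Mathlib
import Pool.Agent.Helper10K1.LF.Two

/-!
# The main terms, and the golden section
-/

set_option autoImplicit false

namespace Pool.Agent.Helper10K1.LF

set_option maxHeartbeats 1000000

variable {w w' : ℝ} {t s : ℤ}

/-- the case of the golden section, where `w ^ (m - 1) + w ^ (m - 2) = w ^ m` -/
lemma golden_case (Q : Quad w w' 1 (-1)) {a b c p q r m : ℕ} {L S : ℝ}
    (hA : a * p + 1 = m) (hB : b * q + 2 = m) (hC : c * r = m) (hab : a ≠ b) (hac : a ≠ c)
    (hbc : b ≠ c) (hp2 : 2 ≤ p) (hq2 : 2 ≤ q) (hr2 : 2 ≤ r)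
    (hpL : (p : ℝ) ≤ L) (hqL : (q : ℝ) ≤ L) (hrL : (r : ℝ) ≤ L) (hS : 14 * L ^ 3 ≤ S)
    (hSa : S ≤ w ^ a) (hSb : S ≤ w ^ b) (hSc : S ≤ w ^ c)
    (heq : (w ^ a + w' ^ a) ^ p + (w ^ b + w' ^ b) ^ q = (w ^ c + w' ^ c) ^ r) : False := by
  have hp2' : (2 : ℝ) ≤ p := by exact_mod_cast hp2
  have hq2' : (2 : ℝ) ≤ q := by exact_mod_cast hq2
  have hr2' : (2 : ℝ) ≤ r := by exact_mod_cast hr2
  have hL2 : 2 ≤ L := by linarith
  have hL0 : 0 < L := by linarith
  have hS0 : 0 < S := lt_of_lt_of_le (by positivity) hS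
  have hw2 : w ^ 2 = w + 1 := by
    have := Q.sq
    push_cast at this
    linarith
  have hw' : w' = 1 - w := by
    have := Q.sum
    push_cast at this
    linarith
  have hlow := Q.low
  have hup : w ≤ 1.6181 := by
    by_contra hcon
    push Not at hcon
    nlinarith
  have hvpos := Q.vpos
  set v : ℝ := w' ^ 2 with hv
  have hvw : v = 2 - w := by
    rw [hv, hw']
    linear_combination hw2
  have hv1 : v ≤ 1 := by linarith
  have hvw2 : v ^ 2 = 5 - 3 * w := by
    rw [hvw]
    linear_combination hw2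
  set ρ : ℝ := ((-1 : ℤ) : ℝ) * v with hρ
  have hρ' : ρ = -v := by rw [hρ]; push_cast; ring
  have hρv : |ρ| = v := by rw [hρ', abs_neg, abs_of_pos hvpos]
  have hva := vpow_le Q hS0 hSa
  have hvb := vpow_le Q hS0 hSb
  have hvc := vpow_le Q hS0 hSc
  rw [← hv] at hva hvb hvc
  -- smallness
  have hS2 : 196 * L ^ 6 ≤ S ^ 2 := by
    calc 196 * L ^ 6 = (14 * L ^ 3) ^ 2 := by ring
      _ ≤ S ^ 2 := pow_le_pow_left₀ (by positivity) hS 2
  have hL26 : 16 * L ^ 2 ≤ L ^ 6 := by
    have h1 : (2 : ℝ) ^ 4 ≤ L ^ 4 := pow_le_pow_left₀ (by norm_num) hL2 4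
    have h2 : L ^ 6 = L ^ 4 * L ^ 2 := by ring
    rw [h2]
    have h3 : 0 < L ^ 2 := by positivity
    nlinarith
  have hL2S : 3 * L ^ 2 / S ^ 2 < 0.18 := by
    rw [div_lt_iff₀ (by positivity)]
    have h3 : 0 < L ^ 2 := by positivity
    linarith
  have hLS : L / S ^ 2 ≤ 1 / 2 := by
    rw [div_le_div_iff₀ (by positivity) (by norm_num)]
    have h3 : L ≤ L ^ 2 := by nlinarith
    have h4 : 0 < L ^ 2 := by positivity
    linarith
  have hexp : ∀ {n e : ℕ}, (n : ℝ) ≤ L → v ^ e ≤ 1 / S ^ 2 →
      |(1 + ρ ^ e) ^ n - 1 - n * ρ ^ e| ≤ (n * v ^ e) ^ 2 := by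
    intro n e hn he
    have h1 : (n : ℝ) * |ρ ^ e| ≤ 1 / 2 := by
      rw [abs_pow, hρv]
      calc (n : ℝ) * v ^ e ≤ L * (1 / S ^ 2) := mul_le_mul hn he (by positivity) hL0.le
        _ = L / S ^ 2 := by ring
        _ ≤ 1 / 2 := hLS
    have h2 := binom h1
    rwa [abs_pow, hρv] at h2
  have xa := hexp hpL hva
  have xb := hexp hqL hvb
  have xc := hexp hrL hvc
  -- the equation divided by `w ^ m`
  have hwm : 0 < w ^ m := by have := Q.pos; positivity
  have hinv : w * (w - 1) = 1 := by linear_combination hw2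
  have e1 : w ^ (a * p) = w ^ m * (w - 1) := by
    rw [← hA, pow_succ, mul_assoc, hinv, mul_one]
  have e2 : w ^ (b * q) = w ^ m * (2 - w) := by
    have h1 : w ^ 2 * (2 - w) = 1 := by
      linear_combination (1 - w) * hw2
    rw [← hB, pow_add, mul_assoc, h1, mul_one]
  have heq2 : (w - 1) * (1 + ρ ^ a) ^ p + (2 - w) * (1 + ρ ^ b) ^ q = (1 + ρ ^ c) ^ r := by
    have t1 : (w ^ a + w' ^ a) ^ p = w ^ (a * p) * (1 + ρ ^ a) ^ p := by
      rw [Q.trace_pow, mul_pow, ← pow_mul]
    have t2 : (w ^ b + w' ^ b) ^ q = w ^ (b * q) * (1 + ρ ^ b) ^ q := by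
      rw [Q.trace_pow, mul_pow, ← pow_mul]
    have t3 : (w ^ c + w' ^ c) ^ r = w ^ (c * r) * (1 + ρ ^ c) ^ r := by
      rw [Q.trace_pow, mul_pow, ← pow_mul]
    rw [t1, t2, t3, e1, e2, hC] at heq
    have : w ^ m * ((w - 1) * (1 + ρ ^ a) ^ p + (2 - w) * (1 + ρ ^ b) ^ q) =
        w ^ m * (1 + ρ ^ c) ^ r := by
      linear_combination heq
    exact mul_left_cancel₀ hwm.ne' this
  -- the second order terms
  set T : ℝ := (w - 1) * (p * ρ ^ a) + (2 - w) * (q * ρ ^ b) - r * ρ ^ c with hT
  have hTb : |T| ≤ (p * v ^ a) ^ 2 + (q * v ^ b) ^ 2 + (r * v ^ c) ^ 2 := by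
    have h1 : T = ((1 + ρ ^ c) ^ r - 1 - r * ρ ^ c) -
        (w - 1) * ((1 + ρ ^ a) ^ p - 1 - p * ρ ^ a) -
        (2 - w) * ((1 + ρ ^ b) ^ q - 1 - q * ρ ^ b) := by
      rw [hT]
      linear_combination heq2
    rw [h1]
    have h2 := abs_sub (((1 + ρ ^ c) ^ r - 1 - r * ρ ^ c) -
        (w - 1) * ((1 + ρ ^ a) ^ p - 1 - p * ρ ^ a)) ((2 - w) * ((1 + ρ ^ b) ^ q - 1 - q * ρ ^ b))
    have h3 := abs_sub ((1 + ρ ^ c) ^ r - 1 - r * ρ ^ c)
        ((w - 1) * ((1 + ρ ^ a) ^ p - 1 - p * ρ ^ a))
    rw [abs_mul, abs_of_pos (by linarith : (0 : ℝ) < 2 - w)] at h2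
    rw [abs_mul, abs_of_pos (by linarith : (0 : ℝ) < w - 1)] at h3
    have h4 : (2 - w) * |(1 + ρ ^ b) ^ q - 1 - q * ρ ^ b| ≤ (q * v ^ b) ^ 2 := by
      have := abs_nonneg ((1 + ρ ^ b) ^ q - 1 - q * ρ ^ b)
      nlinarith
    have h5 : (w - 1) * |(1 + ρ ^ a) ^ p - 1 - p * ρ ^ a| ≤ (p * v ^ a) ^ 2 := by
      have := abs_nonneg ((1 + ρ ^ a) ^ p - 1 - p * ρ ^ a)
      nlinarith
    linarith
  -- the smallest index
  have hfin : ∀ g : ℕ, g ≤ a → g ≤ b → g ≤ c → v ^ g ≤ 1 / S ^ 2 → 0.18 * v ^ g ≤ |T| → False := by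
    intro g ga gb gc hg1 hg2
    have hvg : 0 < v ^ g := by positivity
    have k1 : ∀ {n e : ℕ}, (n : ℝ) ≤ L → g ≤ e → (n * v ^ e) ^ 2 ≤ L ^ 2 / S ^ 2 * v ^ g := by
      intro n e hn he
      have h1 : v ^ e ≤ v ^ g := pow_le_pow_of_le_one hvpos.le hv1 he
      have h2 : 0 < v ^ e := by positivity
      calc ((n : ℝ) * v ^ e) ^ 2 = (n : ℝ) ^ 2 * (v ^ e * v ^ e) := by ring
        _ ≤ L ^ 2 * (1 / S ^ 2 * v ^ g) := by
          apply mul_le_mul (pow_le_pow_left₀ (Nat.cast_nonneg n) hn 2) _ (by positivity)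
            (by positivity)
          exact mul_le_mul (h1.trans hg1) h1 h2.le (by positivity)
        _ = _ := by ring
    have k2 := k1 hpL ga
    have k3 := k1 hqL gb
    have k4 := k1 hrL gc
    have k5 : |T| ≤ 3 * L ^ 2 / S ^ 2 * v ^ g := by
      calc |T| ≤ _ := hTb
        _ ≤ L ^ 2 / S ^ 2 * v ^ g + L ^ 2 / S ^ 2 * v ^ g + L ^ 2 / S ^ 2 * v ^ g := by linarith
        _ = _ := by ring
    have k6 : 3 * L ^ 2 / S ^ 2 * v ^ g < 0.18 * v ^ g := mul_lt_mul_of_pos_right hL2S hvg
    linarith
  -- sizes of powers of `ρ`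
  have hpw : ∀ {g e : ℕ} (k : ℕ), g + k ≤ e → |ρ ^ e| ≤ v ^ g * v ^ k := by
    intro g e k he
    rw [abs_pow, hρv, ← pow_add]
    exact pow_le_pow_of_le_one hvpos.le hv1 he
  have hmul : ∀ {n : ℕ} {κ X Y : ℝ}, 0 ≤ κ → |X| ≤ Y → |κ * (n * X)| ≤ κ * (n * Y) := by
    intro n κ X Y hκ hX
    rw [abs_mul, abs_of_nonneg hκ, abs_mul, Nat.abs_cast]
    exact mul_le_mul_of_nonneg_left (mul_le_mul_of_nonneg_left hX (Nat.cast_nonneg n)) hκ
  rcases lt_or_ge a b with h1 | h1
  · rcases lt_or_ge a c with h2 | h2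
    · -- `a` is the smallest
      refine hfin a le_rfl h1.le h2.le hva ?_
      have i1 : q < p := by
        by_contra hcon
        push Not at hcon
        have : (a + 1) * p ≤ b * q := Nat.mul_le_mul h1 hcon
        have e : (a + 1) * p = a * p + p := by ring
        omega
      have i2 : r < p := by
        by_contra hcon
        push Not at hcon
        have : (a + 1) * p ≤ c * r := Nat.mul_le_mul h2 hcon
        have e : (a + 1) * p = a * p + p := by ring
        omega
      have i1' : (q : ℝ) ≤ p := by exact_mod_cast i1.le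
      have i2' : (r : ℝ) ≤ p := by exact_mod_cast i2.le
      have j1 := hmul (n := q) (κ := 2 - w) (by linarith) (hpw 1 h1)
      have j2 := hmul (n := r) (κ := 1) (by norm_num) (hpw 1 h2)
      have j3 : |(w - 1) * (p * ρ ^ a)| = (w - 1) * (p * v ^ a) := by
        rw [abs_mul, abs_of_nonneg (by linarith), abs_mul, Nat.abs_cast, abs_pow, hρv]
      have j4 : |(w - 1) * (p * ρ ^ a)| ≤ |T| + |(2 - w) * (q * ρ ^ b)| + |1 * (r * ρ ^ c)| := by
        have : (w - 1) * (p * ρ ^ a) = T - (2 - w) * (q * ρ ^ b) + 1 * (r * ρ ^ c) := by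
          rw [hT]; ring
        rw [this]
        refine (abs_add_le _ _).trans ?_
        have := abs_sub T ((2 - w) * (q * ρ ^ b))
        linarith
      rw [pow_one] at j1 j2
      have hva0 : 0 < v ^ a := by positivity
      have j5 : v ^ a * ((w - 1) * p - (2 - w) * (q * v) - r * v) ≤ |T| := by
        rw [j3] at j4
        have : v ^ a * ((w - 1) * p - (2 - w) * (q * v) - r * v) =
          (w - 1) * (p * v ^ a) - (2 - w) * (q * (v ^ a * v)) - 1 * (r * (v ^ a * v)) := by ring
        rw [this]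
        linarith
      have j6 : (0.18 : ℝ) ≤ (w - 1) * p - (2 - w) * (q * v) - r * v := by
        have h3 : (2 - w) * (q * v) ≤ (5 - 3 * w) * p := by
          have : (2 - w) * (q * v) = v ^ 2 * q := by rw [hvw]; ring
          rw [this, hvw2]
          exact mul_le_mul_of_nonneg_left i1' (by linarith)
        have h4 : r * v ≤ (2 - w) * p := by
          rw [hvw, mul_comm]
          exact mul_le_mul_of_nonneg_left i2' (by linarith)
        have h5 : (w - 1) * p - (5 - 3 * w) * p - (2 - w) * p = (5 * w - 8) * p := by ring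
        have h6 : 0.09 * 2 ≤ (5 * w - 8) * p := mul_le_mul (by linarith) hp2' (by norm_num)
          (by linarith)
        linarith
      calc 0.18 * v ^ a = v ^ a * 0.18 := by ring
        _ ≤ v ^ a * ((w - 1) * p - (2 - w) * (q * v) - r * v) :=
          mul_le_mul_of_nonneg_left j6 hva0.le
        _ ≤ |T| := j5
    · -- `c` is the smallest
      have h2' : c < a := lt_of_le_of_ne h2 (Ne.symm hac)
      have h3' : c < b := h2'.trans h1
      exfalso
      refine hfin c h2'.le h3'.le le_rfl hvc ?_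
      have i1 : p ≤ r := by
        by_contra hcon
        push Not at hcon
        have : (c + 1) * (r + 1) ≤ a * p := Nat.mul_le_mul h2' hcon
        have e : (c + 1) * (r + 1) = c * r + c + r + 1 := by ring
        omega
      have i2 : q ≤ r := by
        by_contra hcon
        push Not at hcon
        have : (c + 1) * (r + 1) ≤ b * q := Nat.mul_le_mul h3' hcon
        have e : (c + 1) * (r + 1) = c * r + c + r + 1 := by ring
        omega
      have i1' : (p : ℝ) ≤ r := by exact_mod_cast i1
      have i2' : (q : ℝ) ≤ r := by exact_mod_cast i2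
      have j1 := hmul (n := p) (κ := w - 1) (by linarith) (hpw 1 h2')
      have j2 := hmul (n := q) (κ := 2 - w) (by linarith) (hpw 1 h3')
      have j3 : |(r * ρ ^ c)| = (r * v ^ c) := by
        rw [abs_mul, Nat.abs_cast, abs_pow, hρv]
      have j4 : |(r * ρ ^ c)| ≤ |T| + |(w - 1) * (p * ρ ^ a)| + |(2 - w) * (q * ρ ^ b)| := by
        have : (r * ρ ^ c) = (w - 1) * (p * ρ ^ a) + (2 - w) * (q * ρ ^ b) - T := by
          rw [hT]; ring
        rw [this]
        refine (abs_sub _ _).trans ?_
        have := abs_add_le ((w - 1) * (p * ρ ^ a)) ((2 - w) * (q * ρ ^ b))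
        linarith
      rw [pow_one] at j1 j2
      have hvc0 : 0 < v ^ c := by positivity
      have j5 : v ^ c * (r - (w - 1) * (p * v) - (2 - w) * (q * v)) ≤ |T| := by
        rw [j3] at j4
        have : v ^ c * (r - (w - 1) * (p * v) - (2 - w) * (q * v)) =
          r * v ^ c - (w - 1) * (p * (v ^ c * v)) - (2 - w) * (q * (v ^ c * v)) := by ring
        rw [this]
        linarith
      have j6 : (0.18 : ℝ) ≤ r - (w - 1) * (p * v) - (2 - w) * (q * v) := by
        have h3 : (2 - w) * (q * v) ≤ (5 - 3 * w) * r := by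
          have : (2 - w) * (q * v) = v ^ 2 * q := by rw [hvw]; ring
          rw [this, hvw2]
          exact mul_le_mul_of_nonneg_left i2' (by linarith)
        have h4 : (w - 1) * (p * v) ≤ (2 * w - 3) * r := by
          have : (w - 1) * (p * v) = (2 * w - 3) * p := by
            rw [hvw]
            linear_combination (-(p : ℝ)) * hw2
          rw [this]
          exact mul_le_mul_of_nonneg_left i1' (by linarith)
        have h5 : r - (2 * w - 3) * r - (5 - 3 * w) * r = (w - 1) * r := by ring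
        have h6 : 0.5 * 2 ≤ (w - 1) * r := mul_le_mul (by linarith) hr2' (by norm_num)
          (by linarith)
        linarith
      calc 0.18 * v ^ c = v ^ c * 0.18 := by ring
        _ ≤ v ^ c * (r - (w - 1) * (p * v) - (2 - w) * (q * v)) :=
          mul_le_mul_of_nonneg_left j6 hvc0.le
        _ ≤ |T| := j5
  · have h1' : b < a := lt_of_le_of_ne h1 (Ne.symm hab)
    rcases lt_or_ge b c with h2 | h2
    · -- `b` is the smallest
      refine hfin b h1'.le le_rfl h2.le hvb ?_
      have i1 : p + 1 ≤ q := by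
        by_contra hcon
        push Not at hcon
        have h3 : q ≤ p := by omega
        have : (b + 1) * q ≤ a * p := Nat.mul_le_mul h1' h3
        have e : (b + 1) * q = b * q + q := by ring
        omega
      have i2 : r ≤ q := by
        by_contra hcon
        push Not at hcon
        have : (b + 1) * (q + 1) ≤ c * r := Nat.mul_le_mul h2 hcon
        have e : (b + 1) * (q + 1) = b * q + b + q + 1 := by ring
        omega
      have i1' : (p : ℝ) + 1 ≤ q := by exact_mod_cast i1
      have i2' : (r : ℝ) ≤ q := by exact_mod_cast i2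
      have hvb0 : 0 < v ^ b := by positivity
      rcases eq_or_ne c (b + 1) with h3 | h3
      · -- `c = b + 1`, `a ≥ b + 2`
        have h4 : b + 2 ≤ a := by omega
        have j1 := hmul (n := p) (κ := w - 1) (by linarith) (hpw 2 h4)
        have j3 : |ρ ^ b * ((2 - w) * q + r * v)| = v ^ b * ((2 - w) * q + r * v) := by
          rw [abs_mul, abs_pow, hρv, abs_of_nonneg]
          have : 0 ≤ (2 - w) * (q : ℝ) := mul_nonneg (by linarith) (by linarith)
          have : 0 ≤ r * v := by positivity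
          linarith
        have j4 : |ρ ^ b * ((2 - w) * q + r * v)| ≤ |T| + |(w - 1) * (p * ρ ^ a)| := by
          have : ρ ^ b * ((2 - w) * q + r * v) = T - (w - 1) * (p * ρ ^ a) := by
            rw [hT, h3, pow_succ, hρ']
            ring
          rw [this]
          exact abs_sub _ _
        rw [hvw2] at j1
        have j5 : v ^ b * ((2 - w) * q + r * v - (w - 1) * (p * (5 - 3 * w))) ≤ |T| := by
          rw [j3] at j4
          have : v ^ b * ((2 - w) * q + r * v - (w - 1) * (p * (5 - 3 * w))) =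
            v ^ b * ((2 - w) * q + r * v) - (w - 1) * (p * (v ^ b * (5 - 3 * w))) := by ring
          rw [this]
          linarith
        have j6 : (0.18 : ℝ) ≤ (2 - w) * q + r * v - (w - 1) * (p * (5 - 3 * w)) := by
          have h5 : (w - 1) * (p * (5 - 3 * w)) = (5 * w - 8) * p := by
            linear_combination (-3 * (p : ℝ)) * hw2
          have h6 : (5 * w - 8) * p ≤ (5 * w - 8) * q :=
            mul_le_mul_of_nonneg_left (by linarith) (by linarith)
          have h7 : 0 ≤ r * v := by positivity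
          have h8 : 0.2 * 2 ≤ (10 - 6 * w) * q := mul_le_mul (by linarith) hq2' (by norm_num)
            (by linarith)
          have h9 : (2 - w) * q - (5 * w - 8) * q = (10 - 6 * w) * q := by ring
          linarith
        calc 0.18 * v ^ b = v ^ b * 0.18 := by ring
          _ ≤ v ^ b * ((2 - w) * q + r * v - (w - 1) * (p * (5 - 3 * w))) :=
            mul_le_mul_of_nonneg_left j6 hvb0.le
          _ ≤ |T| := j5
      · -- `c ≥ b + 2`
        have h4 : b + 2 ≤ c := by omega
        have j1 := hmul (n := p) (κ := w - 1) (by linarith) (hpw 1 h1')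
        have j2 := hmul (n := r) (κ := 1) (by norm_num) (hpw 2 h4)
        have j3 : |(2 - w) * (q * ρ ^ b)| = (2 - w) * (q * v ^ b) := by
          rw [abs_mul, abs_of_nonneg (by linarith), abs_mul, Nat.abs_cast, abs_pow, hρv]
        have j4 : |(2 - w) * (q * ρ ^ b)| ≤ |T| + |(w - 1) * (p * ρ ^ a)| + |1 * (r * ρ ^ c)| := by
          have : (2 - w) * (q * ρ ^ b) = T - (w - 1) * (p * ρ ^ a) + 1 * (r * ρ ^ c) := by
            rw [hT]; ring
          rw [this]
          refine (abs_add_le _ _).trans ?_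
          have := abs_sub T ((w - 1) * (p * ρ ^ a))
          linarith
        rw [pow_one] at j1
        rw [hvw2] at j2
        have j5 : v ^ b * ((2 - w) * q - (w - 1) * (p * v) - r * (5 - 3 * w)) ≤ |T| := by
          rw [j3] at j4
          have : v ^ b * ((2 - w) * q - (w - 1) * (p * v) - r * (5 - 3 * w)) =
            (2 - w) * (q * v ^ b) - (w - 1) * (p * (v ^ b * v)) -
              1 * (r * (v ^ b * (5 - 3 * w))) := by ring
          rw [this]
          linarith
        have j6 : (0.18 : ℝ) ≤ (2 - w) * q - (w - 1) * (p * v) - r * (5 - 3 * w) := by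
          have h5 : (w - 1) * (p * v) ≤ (2 * w - 3) * (q - 1) := by
            have : (w - 1) * (p * v) = (2 * w - 3) * p := by
              rw [hvw]
              linear_combination (-(p : ℝ)) * hw2
            rw [this]
            exact mul_le_mul_of_nonneg_left (by linarith) (by linarith)
          have h6 : r * (5 - 3 * w) ≤ (5 - 3 * w) * q := by
            rw [mul_comm]
            exact mul_le_mul_of_nonneg_left i2' (by linarith)
          have h7 : (2 - w) * q - (2 * w - 3) * (q - 1) - (5 - 3 * w) * q = 2 * w - 3 := by ring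
          linarith
        calc 0.18 * v ^ b = v ^ b * 0.18 := by ring
          _ ≤ v ^ b * ((2 - w) * q - (w - 1) * (p * v) - r * (5 - 3 * w)) :=
            mul_le_mul_of_nonneg_left j6 hvb0.le
          _ ≤ |T| := j5
    · -- `c` is the smallest
      have h2' : c < b := lt_of_le_of_ne h2 (Ne.symm hbc)
      have h3' : c < a := h2'.trans h1'
      exfalso
      refine hfin c h3'.le h2'.le le_rfl hvc ?_
      have i1 : p ≤ r := by
        by_contra hcon
        push Not at hcon
        have : (c + 1) * (r + 1) ≤ a * p := Nat.mul_le_mul h3' hcon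
        have e : (c + 1) * (r + 1) = c * r + c + r + 1 := by ring
        omega
      have i2 : q ≤ r := by
        by_contra hcon
        push Not at hcon
        have : (c + 1) * (r + 1) ≤ b * q := Nat.mul_le_mul h2' hcon
        have e : (c + 1) * (r + 1) = c * r + c + r + 1 := by ring
        omega
      have i1' : (p : ℝ) ≤ r := by exact_mod_cast i1
      have i2' : (q : ℝ) ≤ r := by exact_mod_cast i2
      have j1 := hmul (n := p) (κ := w - 1) (by linarith) (hpw 1 h3')
      have j2 := hmul (n := q) (κ := 2 - w) (by linarith) (hpw 1 h2')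
      have j3 : |(r * ρ ^ c)| = (r * v ^ c) := by
        rw [abs_mul, Nat.abs_cast, abs_pow, hρv]
      have j4 : |(r * ρ ^ c)| ≤ |T| + |(w - 1) * (p * ρ ^ a)| + |(2 - w) * (q * ρ ^ b)| := by
        have : (r * ρ ^ c) = (w - 1) * (p * ρ ^ a) + (2 - w) * (q * ρ ^ b) - T := by
          rw [hT]; ring
        rw [this]
        refine (abs_sub _ _).trans ?_
        have := abs_add_le ((w - 1) * (p * ρ ^ a)) ((2 - w) * (q * ρ ^ b))
        linarith
      rw [pow_one] at j1 j2
      have hvc0 : 0 < v ^ c := by positivity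
      have j5 : v ^ c * (r - (w - 1) * (p * v) - (2 - w) * (q * v)) ≤ |T| := by
        rw [j3] at j4
        have : v ^ c * (r - (w - 1) * (p * v) - (2 - w) * (q * v)) =
          r * v ^ c - (w - 1) * (p * (v ^ c * v)) - (2 - w) * (q * (v ^ c * v)) := by ring
        rw [this]
        linarith
      have j6 : (0.18 : ℝ) ≤ r - (w - 1) * (p * v) - (2 - w) * (q * v) := by
        have h3 : (2 - w) * (q * v) ≤ (5 - 3 * w) * r := by
          have : (2 - w) * (q * v) = v ^ 2 * q := by rw [hvw]; ring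
          rw [this, hvw2]
          exact mul_le_mul_of_nonneg_left i2' (by linarith)
        have h4 : (w - 1) * (p * v) ≤ (2 * w - 3) * r := by
          have : (w - 1) * (p * v) = (2 * w - 3) * p := by
            rw [hvw]
            linear_combination (-(p : ℝ)) * hw2
          rw [this]
          exact mul_le_mul_of_nonneg_left i1' (by linarith)
        have h5 : r - (2 * w - 3) * r - (5 - 3 * w) * r = (w - 1) * r := by ring
        have h6 : 0.5 * 2 ≤ (w - 1) * r := mul_le_mul (by linarith) hr2' (by norm_num)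
          (by linarith)
        linarith
      calc 0.18 * v ^ c = v ^ c * 0.18 := by ring
        _ ≤ v ^ c * (r - (w - 1) * (p * v) - (2 - w) * (q * v)) :=
          mul_le_mul_of_nonneg_left j6 hvc0.le
        _ ≤ |T| := j5

end Pool.Agent.Helper10K1.LF
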