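import Mathlib
import Pool.Agent.Helper10K1.LF.Golden
import Pool.Agent.R477.FC.Near2

/-!
# The Fermat-Catalan equation in the terms of a Lucas sequence
-/

set_option autoImplicit false

namespace Pool.Agent.Helper10K1.LF

set_option maxHeartbeats 1000000

variable {w w' : ℝ} {t s : ℤ}

/-- the relative error of a power of a trace -/
lemma rel (Q : Quad w w' t s) {a p : ℕ} {L S : ℝ} (hL2 : 2 ≤ L) (hpL : (p : ℝ) ≤ L)
    (hS : 14 * L ^ 3 ≤ S) (hSa : S ≤ w ^ a) :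
    ∃ e : ℝ, (w ^ a + w' ^ a) ^ p = w ^ (a * p) * (1 + e) ∧ |e| ≤ 0.0004 := by
  have hL0 : 0 < L := by linarith
  have hS0 : 0 < S := lt_of_lt_of_le (by positivity) hS
  have hS2 : 196 * L ^ 6 ≤ S ^ 2 := by
    calc 196 * L ^ 6 = (14 * L ^ 3) ^ 2 := by ring
      _ ≤ S ^ 2 := pow_le_pow_left₀ (by positivity) hS 2
  have hL6 : 32 * L ≤ L ^ 6 := by
    have h1 : (2 : ℝ) ^ 5 ≤ L ^ 5 := pow_le_pow_left₀ (by norm_num) hL2 5
    have h2 : L ^ 6 = L ^ 5 * L := by ring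
    rw [h2]
    nlinarith
  have hLS : L / S ^ 2 ≤ 0.0002 := by
    rw [div_le_iff₀ (by positivity)]
    linarith
  have hva := vpow_le Q hS0 hSa
  set ρ : ℝ := (s : ℝ) * w' ^ 2 with hρ
  have hρv : |ρ| = w' ^ 2 := Q.abs_rho
  have hvpos := Q.vpos
  have h0 : 0 ≤ (p : ℝ) * |ρ ^ a| := by positivity
  have h1 : (p : ℝ) * |ρ ^ a| ≤ L / S ^ 2 := by
    rw [abs_pow, hρv]
    calc (p : ℝ) * (w' ^ 2) ^ a ≤ L * (1 / S ^ 2) := mul_le_mul hpL hva (by positivity) hL0.le
      _ = L / S ^ 2 := by ring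
  have h2 := binom (n := p) (e := ρ ^ a) (by linarith)
  refine ⟨(1 + ρ ^ a) ^ p - 1, ?_, ?_⟩
  · have t1 : (w ^ a + w' ^ a) ^ p = w ^ (a * p) * (1 + ρ ^ a) ^ p := by
      rw [Q.trace_pow, mul_pow, ← pow_mul]
    rw [t1]
    ring
  · have h3 : (1 + ρ ^ a) ^ p - 1 = ((1 + ρ ^ a) ^ p - 1 - p * ρ ^ a) + p * ρ ^ a := by ring
    rw [h3]
    refine (abs_add_le _ _).trans ?_
    have h4 : |(p : ℝ) * ρ ^ a| = (p : ℝ) * |ρ ^ a| := by rw [abs_mul, Nat.abs_cast]
    have h5 : ((p : ℝ) * |ρ ^ a|) ^ 2 ≤ (p : ℝ) * |ρ ^ a| := by nlinarith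
    rw [h4]
    linarith

/-- the case where the power with the first base has the larger main term -/
lemma core_aux (Q : Quad w w' t s) {a b c p q r : ℕ} {L S : ℝ} (hab : a ≠ b) (hac : a ≠ c)
    (hbc : b ≠ c) (hp2 : 2 ≤ p) (hq2 : 2 ≤ q) (hr2 : 2 ≤ r)
    (hpL : (p : ℝ) ≤ L) (hqL : (q : ℝ) ≤ L) (hrL : (r : ℝ) ≤ L) (hS : 14 * L ^ 3 ≤ S)
    (hSa : S ≤ w ^ a) (hSb : S ≤ w ^ b) (hSc : S ≤ w ^ c) (hle : b * q ≤ a * p)
    (heq : (w ^ a + w' ^ a) ^ p + (w ^ b + w' ^ b) ^ q = (w ^ c + w' ^ c) ^ r) : False := by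
  have hp2' : (2 : ℝ) ≤ p := by exact_mod_cast hp2
  have hL2 : 2 ≤ L := by linarith
  have hL0 : 0 < L := by linarith
  have hS1 : 1 < S := by
    have h1 : (2 : ℝ) ^ 3 ≤ L ^ 3 := pow_le_pow_left₀ (by norm_num) hL2 3
    linarith
  have hpos : ∀ {e : ℕ}, S ≤ w ^ e → 1 ≤ e := by
    intro e he
    rcases Nat.eq_zero_or_pos e with h | h
    · subst h
      rw [pow_zero] at he
      linarith
    · exact h
  obtain ⟨ea, h1, h2⟩ := rel Q hL2 hpL hS hSa
  obtain ⟨eb, h3, h4⟩ := rel Q hL2 hqL hS hSb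
  obtain ⟨ec, h5, h6⟩ := rel Q hL2 hrL hS hSc
  have h2' := abs_le.1 h2
  have h4' := abs_le.1 h4
  have h6' := abs_le.1 h6
  obtain ⟨a1, a2⟩ := h2'
  obtain ⟨b1, b2⟩ := h4'
  obtain ⟨c1, c2⟩ := h6'
  have heq' : w ^ (a * p) * (1 + ea) + w ^ (b * q) * (1 + eb) = w ^ (c * r) * (1 + ec) := by
    rw [← h1, ← h3, ← h5]
    exact heq
  have hlow := Q.low
  have hwpos := Q.pos
  have hgold := Q.gold
  have hsq := Q.sq
  have hwa : 0 < w ^ (a * p) := by positivity
  have hwb : 0 < w ^ (b * q) := by positivity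
  have hwc : 0 < w ^ (c * r) := by positivity
  -- `A ≤ C`
  have hAC : a * p ≤ c * r := by
    by_contra hcon
    push Not at hcon
    have k1 : w ^ (c * r) * w ≤ w ^ (a * p) := by
      rw [← pow_succ]
      exact pow_le_pow_right₀ Q.one.le hcon
    have k2 : w ^ (a * p) * 0.99 ≤ w ^ (a * p) * (1 + ea) :=
      mul_le_mul_of_nonneg_left (by linarith) hwa.le
    have k3 : w ^ (c * r) * (1 + ec) ≤ w ^ (c * r) * 1.01 :=
      mul_le_mul_of_nonneg_left (by linarith) hwc.le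
    have k4 : 0 < w ^ (b * q) * (1 + eb) := mul_pos hwb (by linarith)
    have k5 : w ^ (c * r) * 1.618 ≤ w ^ (c * r) * w := mul_le_mul_of_nonneg_left hlow hwc.le
    linarith
  have hy0 : 0 < (w ^ b + w' ^ b) ^ q := by
    rw [h3]
    exact mul_pos hwb (by linarith)
  rcases eq_or_lt_of_le hAC with hAC' | hAC'
  · -- equal main terms
    rcases lt_or_gt_of_ne hac with h | h
    · refine two_equal Q (g := a) (h := c) (P := p) (R := r) (b := b) (q := q) (M := a * p) h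
        (hpos hSa) rfl hAC'.symm hr2 hpL hrL hqL hS hSa hSb ?_
      rw [abs_sub_comm, abs_of_pos (by linarith)]
      linarith
    · refine two_equal Q (g := c) (h := a) (P := r) (R := p) (b := b) (q := q) (M := a * p) h
        (hpos hSc) hAC'.symm rfl hp2 hrL hpL hqL hS hSc hSb ?_
      rw [abs_of_pos (by linarith)]
      linarith
  -- `C = A + 1`
  obtain ⟨u, hu⟩ : ∃ u, c * r = a * p + u := ⟨c * r - a * p, by omega⟩
  have hbA : w ^ (b * q) ≤ w ^ (a * p) := pow_le_pow_right₀ Q.one.le hle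
  have hu1 : u = 1 := by
    by_contra hcon
    have hu2 : 2 ≤ u := by omega
    have k1 : w ^ (a * p) * w ^ 2 ≤ w ^ (c * r) := by
      rw [← pow_add]
      exact pow_le_pow_right₀ Q.one.le (by omega)
    have k2 : w ^ (a * p) * (1 + ea) ≤ w ^ (a * p) * 1.01 :=
      mul_le_mul_of_nonneg_left (by linarith) hwa.le
    have k3 : w ^ (b * q) * (1 + eb) ≤ w ^ (a * p) * 1.01 :=
      mul_le_mul hbA (by linarith) (by linarith) hwa.le
    have k4 : w ^ (c * r) * 0.99 ≤ w ^ (c * r) * (1 + ec) :=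
      mul_le_mul_of_nonneg_left (by linarith) hwc.le
    have k5 : w ^ (a * p) * 2.618 ≤ w ^ (a * p) * w ^ 2 :=
      mul_le_mul_of_nonneg_left (by linarith) hwa.le
    linarith
  rw [hu1] at hu
  obtain ⟨j, hj⟩ : ∃ j, a * p = b * q + j := ⟨a * p - b * q, by omega⟩
  -- divide by `w ^ B`
  have hdiv : w ^ j * (1 + ea) + (1 + eb) = w ^ j * w * (1 + ec) := by
    have k1 : w ^ (b * q) * (w ^ j * (1 + ea) + (1 + eb)) = w ^ (b * q) * (w ^ j * w * (1 + ec)) := by
      have k2 : w ^ (a * p) = w ^ (b * q) * w ^ j := by rw [hj, pow_add]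
      have k3 : w ^ (c * r) = w ^ (b * q) * w ^ j * w := by rw [hu, pow_succ, k2]
      rw [k2, k3] at heq'
      linear_combination heq'
    exact mul_left_cancel₀ hwb.ne' k1
  rcases Nat.eq_zero_or_pos j with hj0 | hj0
  · -- `w` is near `2`
    rw [hj0, pow_zero, one_mul, one_mul] at hdiv
    have k1 : w ≤ 2.01 := by
      by_contra hcon
      push Not at hcon
      have : 2.01 * 0.999 ≤ w * (1 + ec) := mul_le_mul hcon.le (by linarith) (by norm_num) hwpos.le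
      linarith
    have k2 : 1.99 ≤ w := by
      by_contra hcon
      push Not at hcon
      have : w * (1 + ec) ≤ 1.99 * 1.001 := mul_le_mul hcon.le (by linarith) (by linarith)
        (by norm_num)
      linarith
    have k3 : 3.96 ≤ w ^ 2 := by nlinarith
    have k4 : w ^ 2 ≤ 4.05 := by nlinarith
    rcases Q.hs with hs | hs
    · rw [hs] at hsq
      push_cast at hsq
      rcases le_or_gt t 2 with ht | ht
      · have : (t : ℝ) ≤ 2 := by exact_mod_cast ht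
        have : (t : ℝ) * w ≤ 2 * w := mul_le_mul_of_nonneg_right this hwpos.le
        linarith
      · have : (3 : ℝ) ≤ t := by exact_mod_cast ht
        have : 3 * w ≤ (t : ℝ) * w := mul_le_mul_of_nonneg_right this hwpos.le
        linarith
    · rw [hs] at hsq
      push_cast at hsq
      rcases le_or_gt t 1 with ht | ht
      · have : (t : ℝ) ≤ 1 := by exact_mod_cast ht
        have : (t : ℝ) * w ≤ 1 * w := mul_le_mul_of_nonneg_right this hwpos.le
        linarith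
      · have : (2 : ℝ) ≤ t := by exact_mod_cast ht
        have : 2 * w ≤ (t : ℝ) * w := mul_le_mul_of_nonneg_right this hwpos.le
        linarith
  · -- `w` is the golden section
    have hwj : 0 < w ^ j := by positivity
    have hkey : w ^ j * (w * (1 + ec) - (1 + ea)) = 1 + eb := by linear_combination -hdiv
    have hbr : w - 1 - 0.0004 * (w + 1) ≤ w * (1 + ec) - (1 + ea) := by
      have : w * (-0.0004) ≤ w * ec := mul_le_mul_of_nonneg_left c1 hwpos.le
      linarith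
    have hbr0 : 0 < w - 1 - 0.0004 * (w + 1) := by linarith
    have hw162 : w ≤ 1.62 := by
      by_contra hcon
      push Not at hcon
      have k1 : w ≤ w ^ j := le_self_pow₀ Q.one.le (by omega)
      have k2 : w * (w - 1 - 0.0004 * (w + 1)) ≤ 1 + eb := by
        rw [← hkey]
        exact mul_le_mul k1 hbr hbr0.le hwj.le
      nlinarith
    have k3 : 2.617 ≤ w ^ 2 := by nlinarith
    have k4 : w ^ 2 ≤ 2.625 := by nlinarith
    have hts : t = 1 ∧ s = -1 := by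
      rcases Q.hs with hs | hs
      · exfalso
        rw [hs] at hsq
        push_cast at hsq
        rcases le_or_gt t 2 with ht | ht
        · have : (t : ℝ) ≤ 2 := by exact_mod_cast ht
          have : (t : ℝ) * w ≤ 2 * w := mul_le_mul_of_nonneg_right this hwpos.le
          linarith
        · have : (3 : ℝ) ≤ t := by exact_mod_cast ht
          have : 3 * w ≤ (t : ℝ) * w := mul_le_mul_of_nonneg_right this hwpos.le
          linarith
      · refine ⟨?_, hs⟩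
        rw [hs] at hsq
        push_cast at hsq
        by_contra hcon
        rcases lt_or_gt_of_ne hcon with ht | ht
        · have : (t : ℝ) ≤ 0 := by
            have : t ≤ 0 := by omega
            exact_mod_cast this
          have : (t : ℝ) * w ≤ 0 * w := mul_le_mul_of_nonneg_right this hwpos.le
          linarith
        · have : (2 : ℝ) ≤ t := by exact_mod_cast ht
          have : 2 * w ≤ (t : ℝ) * w := mul_le_mul_of_nonneg_right this hwpos.le
          linarith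
    obtain ⟨rfl, rfl⟩ := hts
    have hj1 : j = 1 := by
      by_contra hcon
      have k1 : w ^ 2 ≤ w ^ j := pow_le_pow_right₀ Q.one.le (by omega)
      have k2 : w ^ 2 * (w - 1 - 0.0004 * (w + 1)) ≤ 1 + eb := by
        rw [← hkey]
        exact mul_le_mul k1 hbr hbr0.le hwj.le
      have k5 : 2.617 * 0.616 ≤ w ^ 2 * (w - 1 - 0.0004 * (w + 1)) :=
        mul_le_mul k3 (by linarith) (by norm_num) (by positivity)
      linarith
    rw [hj1] at hj
    exact golden_case Q (m := c * r) hu.symm (by omega) rfl hab hac hbc hp2 hq2 hr2 hpL hqL hrL hS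
      hSa hSb hSc heq

/-- no solution whose bases are large traces, compared with the exponents -/
theorem core (Q : Quad w w' t s) {a b c p q r : ℕ} {L S : ℝ} (hab : a ≠ b) (hac : a ≠ c)
    (hbc : b ≠ c) (hp2 : 2 ≤ p) (hq2 : 2 ≤ q) (hr2 : 2 ≤ r)
    (hpL : (p : ℝ) ≤ L) (hqL : (q : ℝ) ≤ L) (hrL : (r : ℝ) ≤ L) (hS : 14 * L ^ 3 ≤ S)
    (hSa : S ≤ w ^ a) (hSb : S ≤ w ^ b) (hSc : S ≤ w ^ c)
    (heq : (w ^ a + w' ^ a) ^ p + (w ^ b + w' ^ b) ^ q = (w ^ c + w' ^ c) ^ r) : False := by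
  rcases le_total (b * q) (a * p) with h | h
  · exact core_aux Q hab hac hbc hp2 hq2 hr2 hpL hqL hrL hS hSa hSb hSc h heq
  · exact core_aux Q hab.symm hbc hac hq2 hp2 hr2 hqL hpL hrL hS hSb hSa hSc h
      (by rw [add_comm]; exact heq)

open Pool.Agent.R477.FC

/-- the value triples of the solutions with exponents `≥ 2` whose bases are terms of one Lucas sequence
of the second kind with `s = ± 1` and are at least `(log N) ^ κ`, where `N` is the largest base -/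
def LucSet (κ : ℕ) : Set (ℕ × ℕ × ℕ) :=
  {v | ∃ (t s : ℤ) (a b c x y z p q r : ℕ), (s = 1 ∨ s = -1) ∧ 0 < t ∧ 0 < t ^ 2 - 4 * s ∧
    (x : ℤ) = lucV t s a ∧ (y : ℤ) = lucV t s b ∧ (z : ℤ) = lucV t s c ∧
    0 < x ∧ 0 < y ∧ 0 < z ∧ Nat.Coprime x y ∧ Nat.Coprime x z ∧ Nat.Coprime y z ∧
    2 ≤ p ∧ 2 ≤ q ∧ 2 ≤ r ∧ x ^ p + y ^ q = z ^ r ∧ v = (x ^ p, y ^ q, z ^ r) ∧
    Real.log (max x (max y z) : ℕ) ^ κ ≤ x ∧ Real.log (max x (max y z) : ℕ) ^ κ ≤ y ∧
    Real.log (max x (max y z) : ℕ) ^ κ ≤ z}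

theorem luc_main : ∃ κ : ℕ, (LucSet κ).Finite := by
  obtain ⟨C₀, κ, hC₀⟩ := exps
  refine ⟨3 * κ + 1, ?_⟩
  -- the bound for `N`
  obtain ⟨N₀, hN₀⟩ : ∃ N₀ : ℕ, ∀ N : ℕ, N₀ ≤ N →
      4 ≤ Real.log N ∧ 28 * (((C₀ : ℝ) + 2) * 5 ^ κ) ^ 3 ≤ Real.log N := by
    have h1 : Filter.Tendsto (fun n : ℕ => Real.log (n : ℝ)) Filter.atTop Filter.atTop :=
      Real.tendsto_log_atTop.comp tendsto_natCast_atTop_atTop
    have h2 := h1.eventually_ge_atTop (max 4 (28 * (((C₀ : ℝ) + 2) * 5 ^ κ) ^ 3))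
    obtain ⟨w₁, hw₁⟩ := Filter.eventually_atTop.1 h2
    exact ⟨w₁, fun w hw => ⟨(le_max_left _ _).trans (hw₁ w hw),
      (le_max_right _ _).trans (hw₁ w hw)⟩⟩
  obtain ⟨V, hV⟩ := vals_fin N₀
  refine ((Set.finite_Iic V).prod ((Set.finite_Iic V).prod (Set.finite_Iic V))).subset ?_
  rintro v ⟨t, s, a, b, c, x, y, z, p, q, r, hs1, ht, hD, hxa, hyb, hzc, hx0, hy0, hz0, hxy, hxz, hyz,
    hp2, hq2, hr2, heq, rfl, hx, hy, hz⟩
  have hs : SSol x y z p q r 1 1 (-1) := ⟨hx0, hy0, hz0, hxy, hxz, hyz, hp2, hq2, hr2, Or.inl rfl,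
    Or.inl rfl, Or.inr rfl, by
      have : (x : ℤ) ^ p + (y : ℤ) ^ q = (z : ℤ) ^ r := by exact_mod_cast heq
      linarith⟩
  obtain ⟨N, hN⟩ : ∃ N : ℕ, N = max x (max y z) := ⟨_, rfl⟩
  rw [← hN] at hx hy hz
  have hxN : x ≤ N := hN ▸ le_max_left _ _
  have hyN : y ≤ N := hN ▸ (le_max_left _ _).trans (le_max_right _ _)
  have hzN : z ≤ N := hN ▸ (le_max_right _ _).trans (le_max_right _ _)
  rcases Nat.lt_or_ge N N₀ with hw | hw
  · obtain ⟨v1, v2, v3⟩ := hV x y z p q r 1 1 (-1) hs (by omega) (by omega) (by omega)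
    simp only [Set.mem_prod, Set.mem_Iic]
    exact ⟨v1, v2, v3⟩
  exfalso
  obtain ⟨hl4, hlC⟩ := hN₀ N hw
  set l : ℝ := Real.log N with hl
  have hl0 : 0 < l := by linarith
  have hl1 : 1 ≤ l := by linarith
  have hlk : l ≤ l ^ (3 * κ + 1) := le_self_pow₀ hl1 (by omega)
  have hx4 : (4 : ℝ) ≤ x := by linarith
  have hy4 : (4 : ℝ) ≤ y := by linarith
  have hz4 : (4 : ℝ) ≤ z := by linarith
  have hx4' : 4 ≤ x := by exact_mod_cast hx4
  have hy4' : 4 ≤ y := by exact_mod_cast hy4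
  have hz4' : 4 ≤ z := by exact_mod_cast hz4
  -- the exponents
  obtain ⟨σ, hσ⟩ : ∃ σ, σ = Nat.log 2 N + 2 := ⟨_, rfl⟩
  have hNs : N ≤ 2 ^ σ := by
    have h1 : N < 2 ^ (Nat.log 2 N + 1) := Nat.lt_pow_succ_log_self (by norm_num) _
    rw [hσ]
    exact h1.le.trans (Nat.pow_le_pow_right (by norm_num) (by omega))
  have hN2 : 2 ≤ N := by omega
  have hs5 : (σ : ℝ) ≤ 5 * l := by
    have g3 : (2 : ℝ) ^ (Nat.log 2 N) ≤ N := by
      exact_mod_cast Nat.pow_log_le_self 2 (by omega)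
    have g4 := Real.log_le_log (by positivity) g3
    rw [Real.log_pow] at g4
    have hlog2 : (0.6931471803 : ℝ) < Real.log 2 := Real.log_two_gt_d9
    have hl' : (0 : ℝ) ≤ (Nat.log 2 N : ℝ) := by positivity
    rw [hσ]
    push_cast
    nlinarith
  obtain ⟨d1, d2, d3⟩ := hC₀ σ (by omega) x y z p q r 1 1 (-1) hs (hxN.trans hNs) (hyN.trans hNs)
    (hzN.trans hNs)
  have h1 := d1 (by omega)
  have h2 := d2 (by omega)
  have h3 := d3 (by omega)
  set L : ℝ := ((C₀ : ℝ) + 2) * 5 ^ κ * l ^ κ with hL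
  have hCs : ((C₀ * σ ^ κ : ℕ) : ℝ) ≤ L := by
    have h6 : (σ : ℝ) ^ κ ≤ (5 * l) ^ κ := pow_le_pow_left₀ (by positivity) hs5 κ
    push_cast
    calc (C₀ : ℝ) * (σ : ℝ) ^ κ ≤ C₀ * (5 * l) ^ κ := by gcongr
      _ ≤ (C₀ + 2) * (5 * l) ^ κ := by
        apply mul_le_mul_of_nonneg_right (by linarith) (by positivity)
      _ = L := by rw [hL, mul_pow]; ring
  have hpL : (p : ℝ) ≤ L := le_trans (by exact_mod_cast h1) hCs
  have hqL : (q : ℝ) ≤ L := le_trans (by exact_mod_cast h2) hCs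
  have hrL : (r : ℝ) ≤ L := le_trans (by exact_mod_cast h3) hCs
  have hLS : 28 * L ^ 3 ≤ l ^ (3 * κ + 1) := by
    calc 28 * L ^ 3 = (28 * (((C₀ : ℝ) + 2) * 5 ^ κ) ^ 3) * l ^ (3 * κ) := by rw [hL]; ring
      _ ≤ l * l ^ (3 * κ) := mul_le_mul_of_nonneg_right hlC (by positivity)
      _ = l ^ (3 * κ + 1) := by ring
  obtain ⟨w, w', Q⟩ := exists_quad hs1 ht hD
  have hxw : (x : ℝ) = w ^ a + w' ^ a := by
    rw [← Q.lucV_eq, ← hxa]; simp
  have hyw : (y : ℝ) = w ^ b + w' ^ b := by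
    rw [← Q.lucV_eq, ← hyb]; simp
  have hzw : (z : ℝ) = w ^ c + w' ^ c := by
    rw [← Q.lucV_eq, ← hzc]; simp
  have hsize : ∀ {u e : ℕ}, (u : ℝ) = w ^ e + w' ^ e → l ^ (3 * κ + 1) ≤ u →
      l ^ (3 * κ + 1) / 2 ≤ w ^ e := by
    intro u e h4 h5
    have h6 : w' ^ e ≤ 1 := by
      have : |w' ^ e| ≤ 1 := by
        rw [abs_pow]
        exact pow_le_one₀ (abs_nonneg _) Q.abs_w'.le
      exact (abs_le.1 this).2
    have h7 : 1 ≤ w ^ e := one_le_pow₀ Q.one.le
    linarith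
  have hne : ∀ {u v : ℕ}, 4 ≤ u → Nat.Coprime u v → u ≠ v := by
    intro u v hu huv he
    subst he
    rw [Nat.coprime_self] at huv
    omega
  have hab : a ≠ b := by
    intro h
    subst h
    apply hne hx4' hxy
    have : (x : ℝ) = y := by rw [hxw, hyw]
    exact_mod_cast this
  have hac : a ≠ c := by
    intro h
    subst h
    apply hne hx4' hxz
    have : (x : ℝ) = z := by rw [hxw, hzw]
    exact_mod_cast this
  have hbc : b ≠ c := by
    intro h
    subst h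
    apply hne hy4' hyz
    have : (y : ℝ) = z := by rw [hyw, hzw]
    exact_mod_cast this
  refine core Q (S := l ^ (3 * κ + 1) / 2) hab hac hbc hp2 hq2 hr2 hpL hqL hrL (by linarith)
    (hsize hxw hx) (hsize hyw hy) (hsize hzw hz) ?_
  rw [← hxw, ← hyw, ← hzw]
  exact_mod_cast heq

end Pool.Agent.Helper10K1.LF
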